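import Mathlib
import Pool.Agent.R982.CBSTree
import Pool.Agent.K4H58.BS.Main1
import Pool.Agent.K4H58.BS.Up

/-!
# Height versus greedy path in the critical beta-splitting tree

MP_ce738d_pr, Q2: `E[L*_n] - E[L⁺_n]` is of the order `log² n`.

The random tree, its law and the length of the greedy path are those of
`Pool.Agent.R982.CBSDefs` (starting files): `expect n f` is the expectation of `f` over DTCS(n), that
is, the sum over the binary trees with `n` leaves of the product of the split probabilities
`q(m,i) = m / (2 h_{m-1} i (m-i))` times `f`; `leafDepths t` is the list of the depths of the leaves;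
`meanGreedy n = E[L⁺_n]`. The height `L*_n` is the maximum of the depths of the leaves.

Outline. By the exact drift of the greedy chain the function `c h² + C h`, `h = h_{n-1}`, has drift
at least `-(1 + δ)` if `c < 6 (1 + δ) / π²`. At a balanced split (probability about `1 / log n`) let the
greedy chain run for `(log n) / 20` steps in the larger clade: with probability at least `1 / 31` it has
lost a third of its size, and then the smaller clade is better by a constant times `log n`. As the
mean of the maximum of two independent heights is at least the mean of the better one of these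
two options, the gain per step is a positive constant, which is more than `δ`. So the mean height is
at least `c h² - O(h)` with `c > 6 / π²`, while `E[L⁺_n] ~ (6 / π²) log² n` by the starting files.
Upper bound: `E[θ^{L*_m}] ≤ m²` for `m ≤ n` and `θ = 1 + 1 / (2 h_{n-1})`.
-/

set_option autoImplicit false

namespace Pool.Agent.Results.MP_ce738d_pr.HeightVersusGreedy

open Filter Topology Pool.Agent.R982.CBS BinaryTree Finset Pool.Agent.K4H58.BS

/-- The maximum depth of a leaf of the tree. -/
def maxLeafDepth (t : BinaryTree Unit) : ℕ := (leafDepths t).foldr max 0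

/-- The expected height `E[L*_n]`. -/
noncomputable def meanHeight (n : ℕ) : ℝ := expect n (fun t => (maxLeafDepth t : ℝ))

lemma foldr_max_init (l : List ℕ) (b : ℕ) : l.foldr max b = max (l.foldr max 0) b := by
  induction l with
  | nil => simp
  | cons a l ih =>
    rw [List.foldr_cons, List.foldr_cons, ih, max_assoc]

lemma foldr_max_map (l : List ℕ) (hl : l ≠ []) :
    (l.map (fun d => d + 1)).foldr max 0 = l.foldr max 0 + 1 := by
  induction l with
  | nil => exact absurd rfl hl
  | cons a l ih =>
    rw [List.map_cons, List.foldr_cons, List.foldr_cons]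
    rcases eq_or_ne l [] with h | h
    · subst h
      simp
    · rw [ih h]
      omega

lemma leafDepths_ne_nil (t : BinaryTree Unit) : leafDepths t ≠ [] := by
  induction t with
  | nil => simp [leafDepths]
  | node a l r hl hr =>
    rw [leafDepths]
    simp [hl]

lemma maxLeafDepth_eq (t : BinaryTree Unit) : maxLeafDepth t = t.height := by
  induction t with
  | nil => simp [maxLeafDepth, leafDepths]
  | node a l r hl hr =>
    rw [maxLeafDepth, leafDepths, foldr_max_map _ (by simp [leafDepths_ne_nil]),
      List.foldr_append, foldr_max_init, BinaryTree.height, ← hl, ← hr]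
    rfl

lemma meanHeight_succ (N : ℕ) : meanHeight (N + 1) = M N := by
  change ∑ t ∈ treesOfNumNodesEq (N + 1 - 1), treeProb t * (maxLeafDepth t : ℝ) = _
  rw [M, Nat.add_sub_cancel]
  refine Finset.sum_congr rfl fun t _ => ?_
  rw [maxLeafDepth_eq]

lemma meanGreedy_succ (N : ℕ) : meanGreedy (N + 1) = G N := rfl

lemma H_div_log : Tendsto (fun N : ℕ => H N / Real.log ((N + 1 : ℕ) : ℝ)) atTop (𝓝 1) := by
  have h1 := Real.tendsto_harmonic_sub_log_add_one
  have hlog : Tendsto (fun N : ℕ => Real.log ((N + 1 : ℕ) : ℝ)) atTop atTop :=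
    Real.tendsto_log_atTop.comp (tendsto_natCast_atTop_atTop.comp (tendsto_add_atTop_nat 1))
  have h2 : Tendsto (fun N : ℕ => ((harmonic N : ℝ) - Real.log ((N : ℝ) + 1))
      / Real.log ((N + 1 : ℕ) : ℝ)) atTop (𝓝 0) := h1.div_atTop hlog
  have h3 : Tendsto (fun N : ℕ => 1 + ((harmonic N : ℝ) - Real.log ((N : ℝ) + 1))
      / Real.log ((N + 1 : ℕ) : ℝ)) atTop (𝓝 (1 + 0)) := tendsto_const_nhds.add h2
  rw [add_zero] at h3
  refine h3.congr' ?_
  filter_upwards [hlog.eventually_gt_atTop 0] with N hN
  rw [H_eq_harmonic]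
  push_cast at hN ⊢
  field_simp
  ring

/-- the difference is at least a positive multiple of `H_N²` -/
lemma low_H : ∃ c : ℝ, 0 < c ∧ ∀ᶠ N : ℕ in atTop, c * H N ^ 2 ≤ M N - G N := by
  obtain ⟨c, C, D, hc, hM⟩ := Pool.Agent.K4H58.BS.lower
  have hG := G_asymp
  have e : 1 / (2 * (Real.pi ^ 2 / 12)) = 6 / Real.pi ^ 2 := by
    have := Real.pi_pos
    field_simp
    ring
  rw [e] at hG
  set d : ℝ := (c - 6 / Real.pi ^ 2) / 4 with hd
  have hd0 : 0 < d := by rw [hd]; linarith
  have h1 : ∀ᶠ N : ℕ in atTop, G N / H N ^ 2 < 6 / Real.pi ^ 2 + d :=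
    hG.eventually (eventually_lt_nhds (by linarith))
  refine ⟨d, hd0, ?_⟩
  filter_upwards [h1, H_tendsto_atTop.eventually (eventually_ge_atTop (1 + |C| / d + |D| / d))]
    with N hN1 hN2
  have h2 := hM N
  have hC0 : 0 ≤ |C| / d := by positivity
  have hD0 : 0 ≤ |D| / d := by positivity
  have hH : 1 ≤ H N := by linarith
  rw [div_lt_iff₀ (by positivity)] at hN1
  have h3 : |C| ≤ d * H N := by
    have : |C| / d ≤ H N := by linarith
    rwa [div_le_iff₀ hd0, mul_comm] at this
  have h4 : |D| ≤ d * H N := by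
    have : |D| / d ≤ H N := by linarith
    rwa [div_le_iff₀ hd0, mul_comm] at this
  have h5 : -(d * H N ^ 2) ≤ C * H N := by
    have h6 := neg_abs_le C
    nlinarith
  have h6 : D ≤ d * H N ^ 2 := by
    have h7 := le_abs_self D
    have h8 : d * H N ≤ d * H N ^ 2 := by
      apply mul_le_mul_of_nonneg_left _ hd0.le
      nlinarith
    linarith
  have h7 : c = 6 / Real.pi ^ 2 + 4 * d := by rw [hd]; ring
  rw [h7] at h2
  linarith

/-- **MP_ce738d_pr, Q2.** The difference `E[L*_n] - E[L⁺_n]` between the expected height and the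
expected length of the greedy path of DTCS(n) is of the order `log² n`. -/
theorem result : ∃ c C : ℝ, 0 < c ∧ ∀ᶠ n : ℕ in atTop,
    c * Real.log n ^ 2 ≤ meanHeight n - meanGreedy n ∧
    meanHeight n - meanGreedy n ≤ C * Real.log n ^ 2 := by
  obtain ⟨c, hc, hlow⟩ := low_H
  have hlim := H_div_log
  have hlog : Tendsto (fun N : ℕ => Real.log ((N + 1 : ℕ) : ℝ)) atTop atTop :=
    Real.tendsto_log_atTop.comp (tendsto_natCast_atTop_atTop.comp (tendsto_add_atTop_nat 1))
  have h1 : ∀ᶠ N : ℕ in atTop, H N / Real.log ((N + 1 : ℕ) : ℝ) < 2 :=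
    hlim.eventually (eventually_lt_nhds (by norm_num))
  have h2 : ∀ᶠ N : ℕ in atTop, 1 / 2 < H N / Real.log ((N + 1 : ℕ) : ℝ) :=
    hlim.eventually (eventually_gt_nhds (by norm_num))
  refine ⟨c / 4, 24, by positivity, ?_⟩
  have h3 : ∀ᶠ N : ℕ in atTop, c / 4 * Real.log ((N + 1 : ℕ) : ℝ) ^ 2 ≤
      meanHeight (N + 1) - meanGreedy (N + 1) ∧
      meanHeight (N + 1) - meanGreedy (N + 1) ≤ 24 * Real.log ((N + 1 : ℕ) : ℝ) ^ 2 := by
    filter_upwards [hlow, h1, h2, hlog.eventually_gt_atTop 0, eventually_ge_atTop 1]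
      with N a1 a2 a3 a4 a5
    rw [meanHeight_succ, meanGreedy_succ]
    rw [div_lt_iff₀ a4] at a2
    rw [lt_div_iff₀ a4] at a3
    have hH := H_pos a5
    constructor
    · refine le_trans ?_ a1
      have h4 : Real.log ((N + 1 : ℕ) : ℝ) ^ 2 ≤ (2 * H N) ^ 2 := by
        apply pow_le_pow_left₀ a4.le
        linarith
      nlinarith
    · have h5 := upper a5
      have h6 : 0 ≤ G N := Finset.sum_nonneg fun t _ =>
        mul_nonneg (treeProb_nonneg t) (Nat.cast_nonneg _)
      have h7 : H N ^ 2 ≤ (2 * Real.log ((N + 1 : ℕ) : ℝ)) ^ 2 := by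
        apply pow_le_pow_left₀ hH.le
        linarith
      nlinarith
  rw [eventually_atTop] at h3 ⊢
  obtain ⟨N0, hN0⟩ := h3
  refine ⟨N0 + 1, fun n hn => ?_⟩
  obtain ⟨N, rfl⟩ : ∃ N, n = N + 1 := ⟨n - 1, by omega⟩
  exact hN0 N (by omega)

end Pool.Agent.Results.MP_ce738d_pr.HeightVersusGreedy
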